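import Mathlib
import Pool.Agent.H.MP_c8cc4c_co.Hub.FamB
import Pool.Agent.H.MP_c8cc4c_co.Hub.Gen
import Pool.Agent.H.MP_c8cc4c_co.Hub.O.Basic

/-!
# MP_c8cc4c_co, full question, part C: definitions and first facts
-/

open scoped Classical
open Finset

noncomputable section

namespace Pool.Agent.H.MP_c8cc4c_co.Hub

namespace Sys

variable {V : Type} [Fintype V] {R : Rt V} {l c : ℕ} {F : Fam R l c} {T : Tour R} {c2 : ℕ}
  (S : Sys F T c2)

/-- pair of level `j` -/
def c_In (j : ℕ) (x u : V) : Prop := ∃ K, S.Lvl j K x u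

/-- the exceptional vertices of a child region -/
def c_E (j : ℕ) (K' : Set V) : Finset V :=
  univ.filter fun v => v ∈ F.N K' ∧ S.β (j + 1) v ≠ some K'

/-- `x` is an S-end of the pair `x u`: the path meets the child region of `x` -/
def c_S (j : ℕ) (x u : V) : Prop := ∃ K', S.β (j + 1) x = some K' ∧ ∃ v ∈ F.Q s(x, u), v ∈ K'

/-- possible centres -/
def c_Cen (j : ℕ) (s : V) : Prop :=
  (∃ K, S.β j s = some K) ∧ ∀ K', S.β (j + 1) s = some K' → s ∉ K'

/-- the part of the leaf -/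
def c_AL (j : ℕ) (y s : V) : Finset V :=
  (((F.Q s(y, s)).erase s ∪ S.w j y).image (S.im j)).filter fun a => ¬ (S.c_S j y s ∧ a = S.z j y)

/-- the part of the centre -/
def c_AW (j : ℕ) (s : V) : Finset V := (S.w j s).image (S.im j)

/-- relevant ancestors -/
def c_anc (j : ℕ) (v : V) : Finset V :=
  univ.filter fun a => R.anc a v ∧ j * HH l + 1 ≤ R.f a + 2 * l

/-- everything of a pair -/
def c_Rel (j : ℕ) (y s : V) : Finset V :=
  (S.c_AL j y s ∪ S.c_AW j s) ∪ (c_anc (R := R) (l := l) j (S.z j y) ∪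
    c_anc (R := R) (l := l) j (S.z j s))

theorem c_E_card {j : ℕ} {K' : Set V} (h : R.Core ((j + 1) * HH l) K') : (S.c_E j K').card ≤ c2 :=
  (S.asg (j + 1)).few K' h

theorem mem_c_E {j : ℕ} {K' : Set V} {v : V} :
    v ∈ S.c_E j K' ↔ v ∈ F.N K' ∧ S.β (j + 1) v ≠ some K' := by
  unfold c_E
  rw [Finset.mem_filter]
  exact ⟨fun h => h.2, fun h => ⟨mem_univ _, h⟩⟩

/-! ### the image -/

theorem c_im_low {j : ℕ} {v : V} (h : R.f v ≤ (j + 1) * HH l) : S.im j v = v := by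
  unfold im Rt.img
  rw [if_pos h]

theorem c_im_high {j : ℕ} {v : V} (h : (j + 1) * HH l < R.f v) :
    S.im j v = S.k (R.comp ((j + 1) * HH l) v) ∧ R.f (S.im j v) = (j + 1) * HH l + 1 ∧
      S.im j v ∈ R.comp ((j + 1) * HH l) v := by
  have h1 : S.im j v = S.k (R.comp ((j + 1) * HH l) v) := by
    unfold im Rt.img
    rw [if_neg (not_le.2 h)]
  have h2 := S.k_mem _ _ (Rt.comp_core (R := R) h)
  rw [h1]
  exact ⟨rfl, h2.2, h2.1⟩

theorem c_im_core {j : ℕ} {v : V} {K' : Set V} (hK' : R.Core ((j + 1) * HH l) K') (h : v ∈ K') :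
    S.im j v = S.k K' := by
  rw [(S.c_im_high (hK'.hi h)).1, hK'.comp_eq h]

theorem c_im_le (j : ℕ) (v : V) : R.f (S.im j v) ≤ (j + 1) * HH l + 1 := by
  rcases le_or_gt (R.f v) ((j + 1) * HH l) with h | h
  · rw [S.c_im_low h]; omega
  · rw [(S.c_im_high h).2.1]

theorem c_im_ge {j : ℕ} {v : V} (h : j * HH l + 1 ≤ R.f v + 2 * l) :
    j * HH l + 1 ≤ R.f (S.im j v) + 2 * l := by
  rcases le_or_gt (R.f v) ((j + 1) * HH l) with h1 | h1
  · rw [S.c_im_low h1]; exact h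
  · rw [(S.c_im_high h1).2.1, Nat.add_mul]; omega

/-- the image of a vertex is its own image -/
theorem c_im_im (j : ℕ) (v : V) : S.im j (S.im j v) = S.im j v := by
  rcases le_or_gt (R.f v) ((j + 1) * HH l) with h1 | h1
  · rw [S.c_im_low h1, S.c_im_low h1]
  · have h2 := S.c_im_high h1
    rw [S.c_im_core (Rt.comp_core (R := R) h1) h2.2.2, h2.1]

/-- a low image is the vertex itself -/
theorem c_im_eq {j : ℕ} {v a : V} (h : S.im j v = a) (ha : R.f a ≤ (j + 1) * HH l) : v = a := by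
  rcases le_or_gt (R.f v) ((j + 1) * HH l) with h1 | h1
  · rw [← h, S.c_im_low h1]
  · have h2 := S.c_im_high h1
    rw [h] at h2
    omega

/-- a high image: the vertex is in the region of the image -/
theorem c_im_mem {j : ℕ} {v a : V} (h : S.im j v = a) (ha : (j + 1) * HH l < R.f a) :
    R.Core ((j + 1) * HH l) (R.comp ((j + 1) * HH l) a) ∧ v ∈ R.comp ((j + 1) * HH l) a ∧
      a = S.k (R.comp ((j + 1) * HH l) a) := by
  have hv : (j + 1) * HH l < R.f v := by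
    by_contra hcon
    rw [S.c_im_low (not_lt.1 hcon)] at h
    rw [h] at hcon
    exact hcon ha
  have h2 := S.c_im_high hv
  rw [h] at h2
  have hc := Rt.comp_core (R := R) hv
  have he : R.comp ((j + 1) * HH l) a = R.comp ((j + 1) * HH l) v := hc.comp_eq h2.2.2
  rw [he]
  exact ⟨hc, Rt.mem_comp hv, h2.1⟩

/-! ### anchors -/

theorem c_z_le {j : ℕ} {x : V} {K : Set V} (h : S.β j x = some K) :
    R.f (S.z j x) ≤ (j + 1) * HH l + 1 := by
  rcases h1 : S.β (j + 1) x with _ | K'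
  · have := S.o_z_low h1 h
    omega
  · rw [S.o_z_high h1]

theorem c_im_z {j : ℕ} {x : V} {K : Set V} (h : S.β j x = some K) :
    S.im j (S.z j x) = S.z j x := by
  rcases h1 : S.β (j + 1) x with _ | K'
  · exact S.c_im_low (S.o_z_low h1 h)
  · rw [S.o_z_child h1]
    exact S.c_im_core (S.o_core h1) (S.k_mem _ _ (S.o_core h1)).1

/-- number of relevant ancestors -/
theorem c_anc_card {j : ℕ} {v : V} (h : R.f v ≤ (j + 1) * HH l + 1) :
    (c_anc (R := R) (l := l) j v).card ≤ HH l + 2 * l + 1 := by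
  have h1 := R.anc_card v (j * HH l + 1 - 2 * l)
  have h2 : c_anc (R := R) (l := l) j v ⊆
      univ.filter fun a => R.anc a v ∧ j * HH l + 1 - 2 * l ≤ R.f a := by
    intro a ha
    unfold c_anc at ha
    rw [Finset.mem_filter] at ha ⊢
    exact ⟨mem_univ _, ha.2.1, by omega⟩
  have h3 := Finset.card_le_card h2
  rw [Nat.add_mul] at h
  omega

/-! ### the paths `w` -/

/-- a vertex of `w x` is `x` or an interior vertex of a path with the end `x` -/
theorem c_w_ends {j : ℕ} {x v : V} {K : Set V} (h : S.β j x = some K) (hv : v ∈ S.w j x) :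
    v = x ∨ ∃ u, F.Γ.Adj x u ∧ v ∈ F.Q s(x, u) ∧ v ≠ x ∧ v ≠ u := by
  have key : ∀ (h : ℕ) (A : Set V), R.Core h A → x ∈ F.N A → v ∈ S.Wd A x →
      v = x ∨ ∃ u, F.Γ.Adj x u ∧ v ∈ F.Q s(x, u) ∧ v ≠ x ∧ v ≠ u := by
    intro h A hA hx hv
    by_cases hvx : v = x
    · exact Or.inl hvx
    · unfold Wd at hv
      split_ifs at hv with hxA
      · exact Or.inl (Finset.mem_singleton.1 hv)
      · exact Or.inr ((S.exit h A x hA hx hxA).interior hv hvx)
  rcases h1 : S.β (j + 1) x with _ | K'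
  · rw [S.o_w_own h1 h] at hv
    exact key _ K (S.o_core h) (S.o_mem h) hv
  · rw [S.o_w_child h1] at hv
    exact key _ K' (S.o_core h1) (S.o_mem h1) hv

theorem c_w_card {j : ℕ} {x : V} {K : Set V} (h : S.β j x = some K) :
    (S.w j x).card ≤ l + 1 := by
  have key : ∀ (h : ℕ) (A : Set V), R.Core h A → x ∈ F.N A → (S.Wd A x).card ≤ l + 1 := by
    intro h A hA hx
    unfold Wd
    split_ifs with hxA
    · rw [Finset.card_singleton]; omega
    · have := (S.exit h A x hA hx hxA).card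
      omega
  rcases h1 : S.β (j + 1) x with _ | K'
  · rw [S.o_w_own h1 h]
    exact key _ K (S.o_core h) (S.o_mem h)
  · rw [S.o_w_child h1]
    exact key _ K' (S.o_core h1) (S.o_mem h1)

/-- vertices of paths with an end `x` are not too low -/
theorem c_Q_f {j : ℕ} {x u v : V} {K : Set V} (h : S.β j x = some K) (hxu : F.Γ.Adj x u)
    (hv : v ∈ F.Q s(x, u)) : j * HH l + 1 ≤ R.f v + 2 * l := by
  have h1 := F.N_f (S.o_core h) (S.o_mem h)
  have h2 := R.near_f (F.near_Q hxu (F.left_mem hxu) hv)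
  omega

theorem c_w_f {j : ℕ} {x v : V} {K : Set V} (h : S.β j x = some K) (hv : v ∈ S.w j x) :
    j * HH l + 1 ≤ R.f v + 2 * l := by
  rcases S.c_w_ends h hv with rfl | ⟨u, hxu, hvQ, -, -⟩
  · have h1 := F.N_f (S.o_core h) (S.o_mem h)
    omega
  · exact S.c_Q_f h hxu hvQ

/-- if `w x` meets a child region then `x` is exceptional, or it is a vertex of its child region -/
theorem c_w_core {j : ℕ} {x v : V} {K K' : Set V} (h : S.β j x = some K)
    (hK' : R.Core ((j + 1) * HH l) K') (hv : v ∈ S.w j x) (hvK : v ∈ K') :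
    x ∈ S.c_E j K' ∨ (S.β (j + 1) x = some K' ∧ x ∈ K') := by
  have hN : x ∈ F.N K' := by
    rcases S.c_w_ends h hv with rfl | ⟨u, hxu, hvQ, -, -⟩
    · exact F.mem_N_self hvK
    · exact F.mem_N_left hxu hvQ hvK
  by_cases h1 : S.β (j + 1) x = some K'
  · right
    refine ⟨h1, ?_⟩
    by_contra hxK
    rw [S.o_w_child h1] at hv
    unfold Wd at hv
    rw [if_neg hxK] at hv
    exact (S.exit _ K' x hK' hN hxK).disj v hv hvK
  · exact Or.inl (S.mem_c_E.2 ⟨hN, h1⟩)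

theorem c_w_self {j : ℕ} {x : V} {K : Set V} (h : S.β j x = some K) : x ∈ S.w j x := by
  have key : ∀ (h : ℕ) (A : Set V), R.Core h A → x ∈ F.N A → x ∈ S.Wd A x := by
    intro h A hA hx
    unfold Wd
    split_ifs with hxA
    · exact Finset.mem_singleton_self x
    · exact (S.exit h A x hA hx hxA).vW
  rcases h1 : S.β (j + 1) x with _ | K'
  · rw [S.o_w_own h1 h]
    exact key _ K (S.o_core h) (S.o_mem h)
  · rw [S.o_w_child h1]
    exact key _ K' (S.o_core h1) (S.o_mem h1)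

theorem c_w_conn {j : ℕ} {x : V} {K : Set V} (h : S.β j x = some K) :
    ConnOn R.G (S.w j x : Set V) := by
  have key : ∀ (h : ℕ) (A : Set V), R.Core h A → x ∈ F.N A → ConnOn R.G (S.Wd A x : Set V) := by
    intro h A hA hx
    unfold Wd
    split_ifs with hxA
    · rw [Finset.coe_singleton]
      exact connOn_singleton x
    · exact (S.exit h A x hA hx hxA).conn
  rcases h1 : S.β (j + 1) x with _ | K'
  · rw [S.o_w_own h1 h]
    exact key _ K (S.o_core h) (S.o_mem h)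
  · rw [S.o_w_child h1]
    exact key _ K' (S.o_core h1) (S.o_mem h1)

/-! ### pairs -/

theorem c_In_symm {j : ℕ} {x u : V} (h : S.c_In j x u) : S.c_In j u x := by
  obtain ⟨K, h1, h2, h3, h4⟩ := h
  refine ⟨K, h1.symm, h3, h2, ?_⟩
  rintro ⟨K', h5, h6⟩
  exact h4 ⟨K', h6, h5⟩

/-- the other end of a pair with an S-end is exceptional -/
theorem c_S_E {j : ℕ} {x u : V} {K' : Set V} (h : S.c_In j x u) (h1 : S.β (j + 1) x = some K')
    (h2 : ∃ v ∈ F.Q s(x, u), v ∈ K') : u ∈ S.c_E j K' := by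
  obtain ⟨K, h3, h4, h5, h6⟩ := h
  obtain ⟨v, hv, hvK⟩ := h2
  exact S.mem_c_E.2 ⟨F.mem_N_right h3 hv hvK, fun hc => h6 ⟨K', h1, hc⟩⟩

/-- at most one end is an S-end -/
theorem c_S_one {j : ℕ} {x u : V} (h : S.c_In j x u) : ¬ (S.c_S j x u ∧ S.c_S j u x) := by
  rintro ⟨⟨A, hA, v, hv, hvA⟩, ⟨B, hB, w, hw, hwB⟩⟩
  obtain ⟨K, h3, h4, h5, h6⟩ := h
  have h7 : x ∈ F.N B := F.mem_N_right h3.symm hw hwB
  have h8 : u ∈ F.N A := F.mem_N_right h3 hv hvA
  have h9 : A = B := (S.asg (j + 1)).one x u A B hA hB h7 h8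
  subst h9
  exact h6 ⟨A, hA, hB⟩

theorem c_In_Cen {j : ℕ} {y s : V} (h : S.c_In j y s) (h1 : ¬ S.c_S j s y) : S.c_Cen j s := by
  obtain ⟨K, h3, h4, h5, h6⟩ := h
  exact ⟨⟨K, h5⟩, fun K' hK' hs => h1 ⟨K', hK', s, F.left_mem h3.symm, hs⟩⟩

/-- decomposition of the set of a pair -/
theorem c_A_sub {j : ℕ} {y s a : V} (h : S.c_In j y s) (ha : a ∈ S.A j y s) :
    a ∈ S.c_AL j y s ∨ a ∈ S.c_AW j s ∨ (S.c_S j y s ∧ a = S.z j y) := by
  obtain ⟨K, h3, h4, h5, h6⟩ := h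
  by_cases h7 : S.c_S j y s ∧ a = S.z j y
  · exact Or.inr (Or.inr h7)
  obtain ⟨v, hv, hva⟩ := ha
  by_cases hvs : v = s
  · right
    left
    subst hvs
    exact Finset.mem_image.2 ⟨v, S.c_w_self h5, hva⟩
  · rcases hv with hv | hv | hv
    · left
      exact Finset.mem_filter.2 ⟨Finset.mem_image.2 ⟨v, Finset.mem_union_left _
        (Finset.mem_erase.2 ⟨hvs, hv⟩), hva⟩, h7⟩
    · left
      exact Finset.mem_filter.2 ⟨Finset.mem_image.2 ⟨v, Finset.mem_union_right _ hv, hva⟩, h7⟩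
    · right
      left
      exact Finset.mem_image.2 ⟨v, hv, hva⟩

/-- elements of the sets are not too low -/
theorem c_AL_f {j : ℕ} {y s a : V} (h : S.c_In j y s) (ha : a ∈ S.c_AL j y s) :
    j * HH l + 1 ≤ R.f a + 2 * l := by
  obtain ⟨K, h3, h4, h5, h6⟩ := h
  obtain ⟨ha1, -⟩ := Finset.mem_filter.1 ha
  obtain ⟨v, hv, rfl⟩ := Finset.mem_image.1 ha1
  apply S.c_im_ge
  rcases Finset.mem_union.1 hv with hv | hv
  · exact S.c_Q_f h4 h3 (Finset.mem_of_mem_erase hv)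
  · exact S.c_w_f h4 hv

theorem c_AW_f {j : ℕ} {s a : V} (h : S.c_Cen j s) (ha : a ∈ S.c_AW j s) :
    j * HH l + 1 ≤ R.f a + 2 * l := by
  obtain ⟨⟨K, hK⟩, -⟩ := h
  obtain ⟨v, hv, rfl⟩ := Finset.mem_image.1 ha
  exact S.c_im_ge (S.c_w_f hK hv)

end Sys

end Pool.Agent.H.MP_c8cc4c_co.Hub
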