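import Mathlib
import Pool.Agent.H.MP_c8cc4c_co.Hub.C.Def

/-!
# MP_c8cc4c_co, full question, part C: multiplicities and the first two colourings
-/

open scoped Classical
open Finset

noncomputable section

namespace Pool.Agent.H.MP_c8cc4c_co.Hub

/-- the multiplicity -/
def c_m (c c2 : ℕ) : ℕ := 2 * c + 1 + c2

/-- bound for the number of relevant ancestors -/
def c_a (l : ℕ) : ℕ := HH l + 2 * l + 1

namespace Sys

variable {V : Type} [Fintype V] {R : Rt V} {l c : ℕ} {F : Fam R l c} {T : Tour R} {c2 : ℕ}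
  (S : Sys F T c2)

/-- `a` and the ends of the paths with `a` in the interior -/
def c_near (F : Fam R l c) (a : V) : Finset V :=
  insert a (univ.filter fun x => ∃ u, F.Γ.Adj x u ∧ a ∈ F.Q s(x, u) ∧ a ≠ x ∧ a ≠ u)

theorem c_near_card (F : Fam R l c) (a : V) : (c_near F a).card ≤ 2 * c + 1 :=
  (Finset.card_insert_le _ _).trans (Nat.add_le_add_right (F.ends_card a) 1)

theorem c_w_near {j : ℕ} {x v : V} {K : Set V} (h : S.β j x = some K) (hv : v ∈ S.w j x) :
    x ∈ c_near F v := by
  rcases S.c_w_ends h hv with rfl | h1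
  · exact Finset.mem_insert_self _ _
  · exact Finset.mem_insert_of_mem (Finset.mem_filter.2 ⟨mem_univ _, h1⟩)

theorem c_Q_near {x u v : V} (hxu : F.Γ.Adj x u) (hv : v ∈ (F.Q s(x, u)).erase u) :
    x ∈ c_near F v := by
  rw [Finset.mem_erase] at hv
  by_cases hvx : v = x
  · rw [hvx]; exact Finset.mem_insert_self _ _
  · exact Finset.mem_insert_of_mem (Finset.mem_filter.2 ⟨mem_univ _, u, hxu, hv.2, hvx, hv.1⟩)

/-- `a` is in the set `AW` of the centre `s` -/
def c_pW (j : ℕ) (a s : V) : Prop := S.c_Cen j s ∧ a ∈ S.c_AW j s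

/-- `a` is in a set `AL` of the leaf `y` -/
def c_pL (j : ℕ) (a y : V) : Prop := ∃ s, S.c_In j y s ∧ a ∈ S.c_AL j y s

/-- a vertex is in few sets `AW` -/
theorem c_mult_AW (j : ℕ) (a : V) :
    (univ.filter fun s => S.c_pW j a s).card ≤ c_m c c2 := by
  rcases le_or_gt (R.f a) ((j + 1) * HH l) with ha | ha
  · have h1 : (univ.filter fun s => S.c_pW j a s) ⊆ c_near F a := by
      intro s hs
      obtain ⟨-, ⟨⟨K, hK⟩, -⟩, hs⟩ := Finset.mem_filter.1 hs
      obtain ⟨v, hv, hva⟩ := Finset.mem_image.1 hs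
      have := S.c_im_eq hva ha
      subst this
      exact S.c_w_near hK hv
    have h2 := Finset.card_le_card h1
    have h3 := c_near_card F a
    unfold c_m
    omega
  · have h0 := Rt.comp_core (R := R) ha
    have h1 : (univ.filter fun s => S.c_pW j a s) ⊆
        S.c_E j (R.comp ((j + 1) * HH l) a) := by
      intro s hs
      obtain ⟨-, ⟨⟨K, hK⟩, hcen⟩, hs⟩ := Finset.mem_filter.1 hs
      obtain ⟨v, hv, hva⟩ := Finset.mem_image.1 hs
      obtain ⟨h2, h3, h4⟩ := S.c_im_mem hva ha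
      rcases S.c_w_core hK h2 hv h3 with h5 | ⟨h5, h6⟩
      · exact h5
      · exact absurd h6 (hcen _ h5)
    have h2 := Finset.card_le_card h1
    have h3 := S.c_E_card h0
    unfold c_m
    omega

/-- a vertex is in few sets `AL` -/
theorem c_mult_AL (j : ℕ) (a : V) :
    (univ.filter fun y => S.c_pL j a y).card ≤ c_m c c2 := by
  rcases le_or_gt (R.f a) ((j + 1) * HH l) with ha | ha
  · have h1 : (univ.filter fun y => S.c_pL j a y) ⊆ c_near F a := by
      intro y hy
      obtain ⟨-, s, ⟨K, hadj, hK, -, -⟩, hy⟩ := Finset.mem_filter.1 hy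
      obtain ⟨hy1, -⟩ := Finset.mem_filter.1 hy
      obtain ⟨v, hv, hva⟩ := Finset.mem_image.1 hy1
      have := S.c_im_eq hva ha
      subst this
      rcases Finset.mem_union.1 hv with hv | hv
      · exact c_Q_near hadj hv
      · exact S.c_w_near hK hv
    have h2 := Finset.card_le_card h1
    have h3 := c_near_card F a
    unfold c_m
    omega
  · have h0 := Rt.comp_core (R := R) ha
    have h1 : (univ.filter fun y => S.c_pL j a y) ⊆
        S.c_E j (R.comp ((j + 1) * HH l) a) := by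
      intro y hy
      obtain ⟨-, s, ⟨K, hadj, hK, hK2, hnot⟩, hy⟩ := Finset.mem_filter.1 hy
      obtain ⟨hy1, hy2⟩ := Finset.mem_filter.1 hy
      obtain ⟨v, hv, hva⟩ := Finset.mem_image.1 hy1
      obtain ⟨h2, h3, h4⟩ := S.c_im_mem hva ha
      -- the region is not the child region of `y`
      have key : (∃ v ∈ F.Q s(y, s), v ∈ R.comp ((j + 1) * HH l) a) →
          S.β (j + 1) y ≠ some (R.comp ((j + 1) * HH l) a) := by
        intro hQ hc
        apply hy2
        refine ⟨⟨_, hc, hQ⟩, ?_⟩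
        rw [S.o_z_child hc]
        exact h4
      rcases Finset.mem_union.1 hv with hv | hv
      · have hv' := Finset.mem_of_mem_erase hv
        exact S.mem_c_E.2 ⟨F.mem_N_left hadj hv' h3, key ⟨v, hv', h3⟩⟩
      · rcases S.c_w_core hK h2 hv h3 with h5 | ⟨h5, h6⟩
        · exact h5
        · exact absurd h5 (key ⟨y, F.left_mem hadj, h6⟩)
    have h2 := Finset.card_le_card h1
    have h3 := S.c_E_card h0
    unfold c_m
    omega

theorem c_AW_card {j : ℕ} {s : V} (h : S.c_Cen j s) : (S.c_AW j s).card ≤ l + 1 := by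
  obtain ⟨⟨K, hK⟩, -⟩ := h
  exact Finset.card_image_le.trans (S.c_w_card hK)

theorem c_AL_card {j : ℕ} {y s : V} (h : S.c_In j y s) : (S.c_AL j y s).card ≤ 2 * l + 1 := by
  obtain ⟨K, h3, h4, h5, h6⟩ := h
  have h7 := F.Q_card h3
  have h8 := S.c_w_card h4
  have h9 : ((F.Q s(y, s)).erase s).card ≤ l := by
    rw [Finset.card_erase_of_mem (F.right_mem h3)]
    omega
  have e1 : (S.c_AL j y s).card ≤ ((F.Q s(y, s)).erase s ∪ S.w j y).card :=
    (Finset.card_filter_le _ _).trans Finset.card_image_le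
  have e2 := Finset.card_union_le ((F.Q s(y, s)).erase s) (S.w j y)
  omega

/-! ### the relation `Θ` -/

/-- relation between centres -/
def c_theta (j : ℕ) (s t : V) : Prop := S.c_Cen j s ∧ S.c_Cen j t ∧
  ((∃ v ∈ S.c_AW j t, ∃ v' ∈ insert (S.z j s) (S.c_AW j s), R.anc v v') ∨
    ∃ K', S.β (j + 1) s = some K' ∧ t ∈ S.c_E j K')

/-- outdegree of `Θ` -/
def c_dt (l c c2 : ℕ) : ℕ := (l + 2) * c_a l * c_m c c2 + c2

theorem c_theta_card (j : ℕ) (s : V) :
    (univ.filter fun t => S.c_theta j s t).card ≤ c_dt l c c2 := by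
  by_cases hs : S.c_Cen j s
  · obtain ⟨K, hK⟩ := hs.1
    have hB : ((insert (S.z j s) (S.c_AW j s)).biUnion
        fun v' => c_anc (R := R) (l := l) j v').card ≤ (l + 2) * c_a l := by
      refine (Finset.card_biUnion_le_card_mul _ _ (c_a l) ?_).trans (Nat.mul_le_mul_right _ ?_)
      · intro v' hv'
        rcases Finset.mem_insert.1 hv' with rfl | hv'
        · exact c_anc_card (S.c_z_le hK)
        · obtain ⟨v, -, rfl⟩ := Finset.mem_image.1 hv'
          exact c_anc_card (S.c_im_le j v)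
      · refine (Finset.card_insert_le _ _).trans ?_
        have := S.c_AW_card hs
        omega
    have h1 : (univ.filter fun t => S.c_theta j s t) ⊆
        (univ.filter fun t => ∃ b ∈ ((insert (S.z j s) (S.c_AW j s)).biUnion
          fun v' => c_anc (R := R) (l := l) j v'), S.c_pW j b t) ∪
        (univ.filter fun t => ∃ K', S.β (j + 1) s = some K' ∧ t ∈ S.c_E j K') := by
      intro t ht
      obtain ⟨-, -, ht1, ⟨v, hv, v', hv', hvv⟩ | h2⟩ := Finset.mem_filter.1 ht
      · refine Finset.mem_union_left _ (Finset.mem_filter.2 ⟨mem_univ _, v, ?_, ht1, hv⟩)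
        refine Finset.mem_biUnion.2 ⟨v', hv', Finset.mem_filter.2 ⟨mem_univ _, hvv, ?_⟩⟩
        exact S.c_AW_f ht1 hv
      · exact Finset.mem_union_right _ (Finset.mem_filter.2 ⟨mem_univ _, h2⟩)
    have h2 : (univ.filter fun t => ∃ K', S.β (j + 1) s = some K' ∧ t ∈ S.c_E j K').card ≤ c2 := by
      rcases h3 : S.β (j + 1) s with _ | K'
      · have : (univ.filter fun t => ∃ K', (none : Option (Set V)) = some K' ∧ t ∈ S.c_E j K') = ∅ := by
          rw [Finset.filter_eq_empty_iff]
          rintro t - ⟨K', hc, -⟩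
          exact absurd hc (by simp)
        rw [this]
        simp
      · refine (Finset.card_le_card ?_).trans (S.c_E_card (S.o_core h3))
        intro t ht
        obtain ⟨-, A, hA, ht⟩ := Finset.mem_filter.1 ht
        rw [Option.some.inj hA]
        exact ht
    have h3 := meet_card _ (fun b t => S.c_pW j b t) _ (c_m c c2) hB
      fun b _ => S.c_mult_AW j b
    have h4 := (Finset.card_le_card h1).trans (Finset.card_union_le _ _)
    unfold c_dt
    omega
  · have : (univ.filter fun t => S.c_theta j s t) = ∅ := by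
      rw [Finset.filter_eq_empty_iff]
      rintro t - ⟨hc, -⟩
      exact hs hc
    rw [this]
    simp

/-- the colouring `θ` -/
theorem c_theta_col (j : ℕ) : ∃ θ : V → Fin (2 * c_dt l c c2 + 1), ∀ s t, s ≠ t →
    S.c_theta j s t → θ s ≠ θ t :=
  col_out _ _ (S.c_theta_card j)

/-! ### classes and the relation `L` -/

/-- a class of oriented pairs -/
structure Cls (j : ℕ) (C : V → V → Prop) : Prop where
  inl : ∀ y s, C y s → S.c_In j y s
  leaf : ∀ y s s', C y s → C y s' → s = s'
  cen : ∀ y s, C y s → S.c_Cen j s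
  kind : (∀ y s, C y s → S.c_S j y s) ∨ (∀ y s, C y s → ¬ S.c_S j y s)
  reg : ∀ y s y' s', C y s → C y' s' → S.c_S j y s → S.c_S j y' s' →
    S.β (j + 1) y = S.β (j + 1) y' → s = s'

theorem c_Rel_card {j : ℕ} {y s : V} (h : S.c_In j y s) (hs : S.c_Cen j s) :
    (S.c_Rel j y s).card ≤ 3 * l + 2 + 2 * c_a l := by
  have h1 := S.c_AL_card h
  have h2 := S.c_AW_card hs
  obtain ⟨K, h3, h4, h5, h6⟩ := h
  have h7 := c_anc_card (S.c_z_le h4)
  have h8 := c_anc_card (S.c_z_le h5)
  have e1 := Finset.card_union_le (S.c_AL j y s ∪ S.c_AW j s)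
    (c_anc (R := R) (l := l) j (S.z j y) ∪ c_anc (R := R) (l := l) j (S.z j s))
  have e2 := Finset.card_union_le (S.c_AL j y s) (S.c_AW j s)
  have e3 := Finset.card_union_le (c_anc (R := R) (l := l) j (S.z j y))
    (c_anc (R := R) (l := l) j (S.z j s))
  unfold c_Rel c_a
  omega

/-- outdegree of the relation `L` -/
def c_dl (l c c2 : ℕ) : ℕ := (3 * l + 2 + 2 * c_a l) * c_m c c2

/-- the relation `L` of a class -/
def c_eta (j : ℕ) (C : V → V → Prop) (y' y : V) : Prop :=
  ∃ s s', C y s ∧ C y' s' ∧ ∃ a ∈ S.c_AL j y s, a ∈ S.c_Rel j y' s'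

/-- the colouring `η` -/
theorem c_eta_col {j : ℕ} {C : V → V → Prop} (hC : S.Cls j C) :
    ∃ η : V → Fin (2 * c_dl l c c2 + 1), ∀ y' y, y' ≠ y → S.c_eta j C y' y → η y' ≠ η y := by
  refine col_out (S.c_eta j C) _ ?_
  intro y'
  by_cases hy' : ∃ s', C y' s'
  · obtain ⟨s', hs'⟩ := hy'
    have h1 : (univ.filter fun y => S.c_eta j C y' y) ⊆
        (univ.filter fun y => ∃ b ∈ S.c_Rel j y' s', S.c_pL j b y) := by
      intro y hy
      obtain ⟨-, s, s'', h2, h3, a, ha, ha'⟩ := Finset.mem_filter.1 hy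
      have := hC.leaf _ _ _ h3 hs'
      subst this
      exact Finset.mem_filter.2 ⟨mem_univ _, a, ha', s, hC.inl _ _ h2, ha⟩
    refine (Finset.card_le_card h1).trans ?_
    exact meet_card _ (fun b y => S.c_pL j b y) _ (c_m c c2)
      (S.c_Rel_card (hC.inl _ _ hs') (hC.cen _ _ hs')) fun b _ => S.c_mult_AL j b
  · have : (univ.filter fun y => S.c_eta j C y' y) = ∅ := by
      rw [Finset.filter_eq_empty_iff]
      rintro t - ⟨s, s', -, hc, -⟩
      exact hy' ⟨s', hc⟩
    rw [this]
    simp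

end Sys

end Pool.Agent.H.MP_c8cc4c_co.Hub
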