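import Mathlib
import Pool.Agent.H.MP_c8cc4c_co.Hub.C.Mult

/-!
# MP_c8cc4c_co, full question, part C: the third colouring
-/

open scoped Classical
open Finset

noncomputable section

namespace Pool.Agent.H.MP_c8cc4c_co.Hub

/-- `Fact2Stmt` with given constants -/
def F2 (l c d : ℕ) : Prop := ∀ (V : Type) [Fintype V] (G : SimpleGraph V), M5 G →
  ∀ (ι : Type) [Fintype ι] (X : ι → Set V), (∀ i, ConnOn G (X i)) →
  (∀ i j, i ≠ j → Disjoint (X i) (X j)) →
  ∀ (Y : Type) [Fintype Y] (a b : Y → ι) (L : Y → Finset V), (∀ y, a y ≠ b y) →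
  (∀ y, (L y).card ≤ l) → (∀ v, (univ.filter fun y => v ∈ L y).card ≤ c) →
  (∀ y, Link G (X (a y)) (X (b y)) (L y)) →
  ∀ S : Finset ι, ((S ×ˢ S).filter fun q => ∃ y, a y = q.1 ∧ b y = q.2).card ≤ d * S.card

theorem F2_of (h : Fact2Stmt) (l c : ℕ) : ∃ d, F2 l c d := h l c

namespace Sys

variable {V : Type} [Fintype V] {R : Rt V} {l c : ℕ} {F : Fam R l c} {T : Tour R} {c2 : ℕ}
  (S : Sys F T c2)

/-- the vertices whose image is a descendant of a vertex of `AW s` -/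
def c_X (j : ℕ) (s : V) : Set V := {p | ∃ a ∈ S.c_AW j s, R.anc a (S.im j p)}

/-- a vertex is joined to its image by vertices with the same image -/
theorem c_im_near (j : ℕ) (p : V) : ∃ n, Near R.G {q | S.im j q = S.im j p} n p (S.im j p) := by
  rcases le_or_gt (R.f p) ((j + 1) * HH l) with h | h
  · have h1 := S.c_im_low h
    refine ⟨0, ?_⟩
    have h2 : Near R.G {q | S.im j q = S.im j p} 0 p p := near_refl rfl
    rw [h1] at h2 ⊢
    exact h2
  · have hc := Rt.comp_core (R := R) h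
    obtain ⟨n, hn⟩ := hc.conn.2 p (Rt.mem_comp h) (S.im j p) (S.c_im_high h).2.2
    refine ⟨n, near_mono hn le_rfl ?_⟩
    intro q hq
    change S.im j q = S.im j p
    rw [S.c_im_core hc hq, S.c_im_core hc (Rt.mem_comp h)]

/-- a vertex whose image is a descendant of `im v` is joined to `v` by such vertices -/
theorem c_desc_near {j : ℕ} {v p : V} (h : R.anc (S.im j v) (S.im j p)) :
    ∃ n, Near R.G {q | R.anc (S.im j v) (S.im j q)} n p v := by
  obtain ⟨n1, h1⟩ := S.c_im_near j p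
  obtain ⟨n2, h2⟩ := R.anc_path h
  obtain ⟨n3, h3⟩ := S.c_im_near j v
  have e1 : Near R.G {q | R.anc (S.im j v) (S.im j q)} n1 p (S.im j p) := by
    refine near_mono h1 le_rfl ?_
    intro q hq
    change R.anc (S.im j v) (S.im j q)
    have : S.im j q = S.im j p := hq
    rw [this]
    exact h
  have e2 : Near R.G {q | R.anc (S.im j v) (S.im j q)} n2 (S.im j p) (S.im j v) := by
    refine near_mono h2 le_rfl ?_
    rintro q ⟨hq1, hq2⟩
    have him : S.im j q = q := by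
      rcases le_or_gt (R.f q) ((j + 1) * HH l) with hq | hq
      · exact S.c_im_low hq
      · have h4 := S.c_im_le j p
        have h5 := R.anc_le hq2
        have h6 : q = S.im j p := R.anc_eq hq2 (by omega)
        rw [h6, S.c_im_im]
    change R.anc (S.im j v) (S.im j q)
    rw [him]
    exact hq1
  have e3 : Near R.G {q | R.anc (S.im j v) (S.im j q)} n3 (S.im j v) v := by
    refine near_mono (near_symm h3) le_rfl ?_
    intro q hq
    change R.anc (S.im j v) (S.im j q)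
    have : S.im j q = S.im j v := hq
    rw [this]
    exact R.anc_refl _
  exact ⟨_, near_trans (near_trans e1 e2) e3⟩

theorem c_w_sub_X (j : ℕ) (s : V) : (S.w j s : Set V) ⊆ S.c_X j s := fun v hv =>
  ⟨S.im j v, Finset.mem_image.2 ⟨v, hv, rfl⟩, R.anc_refl _⟩

theorem c_X_conn {j : ℕ} {s : V} (hs : S.c_Cen j s) : ConnOn R.G (S.c_X j s) := by
  obtain ⟨⟨K, hK⟩, -⟩ := hs
  have hself := S.c_w_self hK
  refine connOn_of_center (S.c_w_sub_X j s hself) ?_
  rintro p ⟨a, ha, hap⟩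
  obtain ⟨v, hv, rfl⟩ := Finset.mem_image.1 ha
  obtain ⟨n, hn⟩ := (S.c_w_conn hK).2 s hself v hv
  obtain ⟨m, hm⟩ := S.c_desc_near hap
  refine ⟨n + m, near_trans (near_mono hn le_rfl (S.c_w_sub_X j s)) ?_⟩
  refine near_mono (near_symm hm) le_rfl ?_
  intro q hq
  exact ⟨S.im j v, ha, hq⟩

/-- the sets of different centres of the same colour are disjoint -/
theorem c_X_disj {j : ℕ} {N : ℕ} {θ : V → Fin N}
    (hθ : ∀ s t, s ≠ t → S.c_theta j s t → θ s ≠ θ t) {s t : V} (hs : S.c_Cen j s)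
    (ht : S.c_Cen j t) (hst : s ≠ t) (he : θ s = θ t) {p : V} (hp : p ∈ S.c_X j s)
    (hp' : p ∈ S.c_X j t) : False := by
  obtain ⟨a, ha, hap⟩ := hp
  obtain ⟨b, hb, hbp⟩ := hp'
  rcases R.anc_comp hap hbp with h | h
  · exact hθ t s (Ne.symm hst) ⟨ht, hs, Or.inl ⟨a, ha, b, Finset.mem_insert_of_mem hb, h⟩⟩ he.symm
  · exact hθ s t hst ⟨hs, ht, Or.inl ⟨b, hb, a, Finset.mem_insert_of_mem ha, h⟩⟩ he

/-- the leaf is joined by `w` to the set of a centre with an ancestor of its anchor -/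
theorem c_reach {j : ℕ} {y s : V} {K : Set V} (hy : S.β j y = some K)
    (h : ∃ a ∈ S.c_AW j s, R.anc a (S.z j y)) :
    ∃ x0 ∈ S.c_X j s, ∃ n, Near R.G ({x0} ∪ (S.w j y : Set V)) n x0 y := by
  obtain ⟨a, ha, haz⟩ := h
  have hself := S.c_w_self hy
  have hconn := S.c_w_conn hy
  rcases h1 : S.β (j + 1) y with _ | K'
  · -- own vertex
    have hzw : S.z j y ∈ S.w j y := by
      rw [S.o_z_own h1 hy, S.o_w_own h1 hy]
      unfold Wd
      split_ifs with hyK
      · exact Finset.mem_singleton_self y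
      · exact (S.exit _ K y (S.o_core hy) (S.o_mem hy) hyK).bW
    obtain ⟨n, hn⟩ := hconn.2 _ hzw _ hself
    refine ⟨S.z j y, ⟨a, ha, ?_⟩, n, near_mono hn le_rfl Set.subset_union_right⟩
    rw [S.c_im_z hy]
    exact haz
  · have hK' := S.o_core h1
    have hX : ∀ q ∈ K', q ∈ S.c_X j s := by
      intro q hq
      refine ⟨a, ha, ?_⟩
      rw [S.c_im_core hK' hq, ← S.o_z_child h1]
      exact haz
    by_cases hyK : y ∈ K'
    · exact ⟨y, hX y hyK, 0, near_refl (Or.inl rfl)⟩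
    · have hE := S.exit _ K' y hK' (S.o_mem h1) hyK
      have hw : S.w j y = S.W K' y := by
        rw [S.o_w_child h1]
        unfold Wd
        rw [if_neg hyK]
      have hbw : S.eb K' y ∈ (S.w j y : Set V) := by
        rw [hw]
        exact hE.bW
      obtain ⟨n, hn⟩ := hconn.2 _ hbw _ hself
      refine ⟨S.ea K' y, hX _ hE.aK, 1 + n, ?_⟩
      exact near_trans (near_adj (Or.inl rfl) (Or.inr hbw) hE.adj.symm)
        (near_mono hn le_rfl Set.subset_union_right)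

/-- the link of a pair -/
def c_L (j : ℕ) (y s' : V) : Finset V := (F.Q s(y, s')).erase s' ∪ S.w j y

theorem c_L_card {j : ℕ} {y s' : V} (h : S.c_In j y s') : (S.c_L j y s').card ≤ 2 * l + 1 := by
  obtain ⟨K, h3, h4, h5, h6⟩ := h
  have h7 := F.Q_card h3
  have h8 := S.c_w_card h4
  have h9 : ((F.Q s(y, s')).erase s').card ≤ l := by
    rw [Finset.card_erase_of_mem (F.right_mem h3)]
    omega
  have e2 := Finset.card_union_le ((F.Q s(y, s')).erase s') (S.w j y)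
  unfold c_L
  omega

theorem c_L_near {j : ℕ} {y s' v : V} (h : S.c_In j y s') (hv : v ∈ S.c_L j y s') :
    y ∈ c_near F v := by
  obtain ⟨K, h3, h4, h5, h6⟩ := h
  rcases Finset.mem_union.1 hv with hv | hv
  · exact c_Q_near h3 hv
  · exact S.c_w_near h4 hv

theorem c_link {j : ℕ} {y s s' : V} (h : S.c_In j y s') (hs' : S.c_Cen j s')
    (ha : ∃ a ∈ S.c_AW j s, R.anc a (S.z j y)) :
    Link R.G (S.c_X j s) (S.c_X j s') (S.c_L j y s' : Set V) := by
  obtain ⟨K, h3, h4, h5, h6⟩ := h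
  obtain ⟨x0, hx0, n, hn⟩ := S.c_reach h4 ha
  have h7 := F.near_Q h3 (F.left_mem h3) (F.right_mem h3)
  refine ⟨x0, hx0, s', S.c_w_sub_X j s' (S.c_w_self h5), n + l, ?_⟩
  refine near_trans (near_mono hn le_rfl ?_) (near_mono h7 le_rfl ?_)
  · rintro v (rfl | hv)
    · exact Or.inl (Or.inl rfl)
    · exact Or.inr (Finset.mem_coe.2 (Finset.mem_union_right _ hv))
  · intro v hv
    by_cases hvs : v = s'
    · exact Or.inl (Or.inr hvs)
    · exact Or.inr (Finset.mem_coe.2 (Finset.mem_union_left _ (Finset.mem_erase.2 ⟨hvs, hv⟩)))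

/-- the relation `Ψ` in one colour -/
def c_P (j : ℕ) (C : V → V → Prop) {N : ℕ} (θ : V → Fin N) (t : Fin N) (y s s' : V) : Prop :=
  C y s' ∧ s ≠ s' ∧ S.c_Cen j s ∧ θ s = t ∧ θ s' = t ∧ ∃ a ∈ S.c_AW j s, R.anc a (S.z j y)

theorem c_psi_t (hM : M5 R.G) {d : ℕ} (hF2 : F2 (2 * l + 1) (2 * c + 1) d) {j : ℕ}
    {C : V → V → Prop} (hC : S.Cls j C) {N : ℕ} {θ : V → Fin N}
    (hθ : ∀ s t, s ≠ t → S.c_theta j s t → θ s ≠ θ t) (t : Fin N) :
    ∃ ψ : V → Fin (2 * d + 1), ∀ y s s', S.c_P j C θ t y s s' → ψ s ≠ ψ s' := by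
  have key := hF2 V R.G hM {s : V // S.c_Cen j s ∧ θ s = t} (fun s => S.c_X j s.1)
    (fun s => S.c_X_conn s.2.1) (fun s s' hss => Set.disjoint_left.2 fun p hp hp' =>
      S.c_X_disj hθ s.2.1 s'.2.1 (fun hc => hss (Subtype.ext hc)) (s.2.2.trans s'.2.2.symm) hp hp')
    {y : V // ∃ s s', S.c_P j C θ t y s s'}
    (fun y => ⟨y.2.choose, y.2.choose_spec.choose_spec.2.2.1,
      y.2.choose_spec.choose_spec.2.2.2.1⟩)
    (fun y => ⟨y.2.choose_spec.choose, hC.cen _ _ y.2.choose_spec.choose_spec.1,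
      y.2.choose_spec.choose_spec.2.2.2.2.1⟩)
    (fun y => S.c_L j y.1 y.2.choose_spec.choose)
    (fun y hc => y.2.choose_spec.choose_spec.2.1 (congrArg Subtype.val hc))
    (fun y => S.c_L_card (hC.inl _ _ y.2.choose_spec.choose_spec.1))
    (fun v => by
      refine le_trans ?_ (c_near_card F v)
      refine Finset.card_le_card_of_injOn (fun y => y.1) ?_ ?_
      · intro y hy
        exact S.c_L_near (hC.inl _ _ y.2.choose_spec.choose_spec.1) (Finset.mem_filter.1 hy).2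
      · intro y _ y' _ hyy
        exact Subtype.ext hyy)
    (fun y => S.c_link (hC.inl _ _ y.2.choose_spec.choose_spec.1)
      (hC.cen _ _ y.2.choose_spec.choose_spec.1) y.2.choose_spec.choose_spec.2.2.2.2.2)
  obtain ⟨ψ, hψ⟩ := col_deg (α := {s : V // S.c_Cen j s ∧ θ s = t}) (fun s s' =>
    ∃ y : {y : V // ∃ s s', S.c_P j C θ t y s s'},
      (⟨y.2.choose, y.2.choose_spec.choose_spec.2.2.1,
      y.2.choose_spec.choose_spec.2.2.2.1⟩ : {s : V // S.c_Cen j s ∧ θ s = t}) = s ∧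
      (⟨y.2.choose_spec.choose, hC.cen _ _ y.2.choose_spec.choose_spec.1,
      y.2.choose_spec.choose_spec.2.2.2.2.1⟩ : {s : V // S.c_Cen j s ∧ θ s = t}) = s') (2 * d)
    (fun A hA => low_deg _ d A hA (by convert key A))
  refine ⟨fun s => if h : S.c_Cen j s ∧ θ s = t then ψ ⟨s, h⟩ else 0, ?_⟩
  intro y s s' hP
  have hP' := hP
  obtain ⟨hCy, hss, hs, hθs, hθs', hanc⟩ := hP'
  have hs' : S.c_Cen j s' := hC.cen _ _ hCy
  have e1 : (if h : S.c_Cen j s ∧ θ s = t then ψ ⟨s, h⟩ else 0) = ψ ⟨s, hs, hθs⟩ :=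
    dif_pos ⟨hs, hθs⟩
  have e2 : (if h : S.c_Cen j s' ∧ θ s' = t then ψ ⟨s', h⟩ else 0) = ψ ⟨s', hs', hθs'⟩ :=
    dif_pos ⟨hs', hθs'⟩
  change (if h : S.c_Cen j s ∧ θ s = t then ψ ⟨s, h⟩ else 0) ≠
    (if h : S.c_Cen j s' ∧ θ s' = t then ψ ⟨s', h⟩ else 0)
  rw [e1, e2]
  refine hψ _ _ (fun hc => hss (congrArg Subtype.val hc)) ?_
  have hyY : ∃ s s', S.c_P j C θ t y s s' := ⟨s, s', hP⟩
  refine ⟨⟨y, hyY⟩, Subtype.ext ?_, Subtype.ext ?_⟩
  · -- the centre with an ancestor of the anchor is unique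
    change hyY.choose = s
    by_contra hne
    obtain ⟨g1, g2, g3, g4, g5, g6⟩ := hyY.choose_spec.choose_spec
    obtain ⟨K, k1, k2, k3, k4⟩ := hC.inl _ _ hCy
    have m1 : S.z j y ∈ S.c_X j hyY.choose := by
      obtain ⟨a, ha, haz⟩ := g6
      exact ⟨a, ha, by rw [S.c_im_z k2]; exact haz⟩
    have m2 : S.z j y ∈ S.c_X j s := by
      obtain ⟨a, ha, haz⟩ := hanc
      exact ⟨a, ha, by rw [S.c_im_z k2]; exact haz⟩
    exact S.c_X_disj hθ g3 hs hne (g4.trans hθs.symm) m1 m2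
  · change hyY.choose_spec.choose = s'
    exact hC.leaf _ _ _ hyY.choose_spec.choose_spec.1 hCy

/-- the colouring `ψ` -/
theorem c_psi_col (hM : M5 R.G) {d : ℕ} (hF2 : F2 (2 * l + 1) (2 * c + 1) d) {j : ℕ}
    {C : V → V → Prop} (hC : S.Cls j C) {N : ℕ} {θ : V → Fin N}
    (hθ : ∀ s t, s ≠ t → S.c_theta j s t → θ s ≠ θ t) :
    ∃ ψ : V → Fin (2 * d + 1), ∀ y s s', C y s' → s ≠ s' → S.c_Cen j s → θ s = θ s' →
      (∃ a ∈ S.c_AW j s, R.anc a (S.z j y)) → ψ s ≠ ψ s' := by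
  choose ψ hψ using fun t => S.c_psi_t hM hF2 hC hθ t
  refine ⟨fun s => ψ (θ s) s, ?_⟩
  intro y s s' h1 h2 h3 h4 h5
  have h6 := hψ (θ s) y s s' ⟨h1, h2, h3, rfl, h4.symm, h5⟩
  change ψ (θ s) s ≠ ψ (θ s') s'
  rw [← h4]
  exact h6

end Sys

end Pool.Agent.H.MP_c8cc4c_co.Hub
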