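import Mathlib
import Pool.Agent.H.MP_c8cc4c_co.Hub.C.Psi

/-!
# MP_c8cc4c_co, full question, part C: the colouring of one class
-/

open scoped Classical
open Finset

noncomputable section

namespace Pool.Agent.H.MP_c8cc4c_co.Hub

namespace Sys

variable {V : Type} [Fintype V] {R : Rt V} {l c : ℕ} {F : Fam R l c} {T : Tour R} {c2 : ℕ}
  (S : Sys F T c2)

/-- symmetric form of a conflict -/
def c_half (j : ℕ) (x u y w : V) : Prop := (∃ a ∈ S.A j x u, a ∈ S.A j y w) ∨
  (∃ a ∈ S.A j x u, R.anc a (S.z j y) ∨ R.anc a (S.z j w))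

theorem c_conf_half {j : ℕ} {x u y w : V} (h : S.Conf j x u y w) :
    S.c_half j x u y w ∨ S.c_half j y w x u := by
  rcases h with h | h | h
  · exact Or.inl (Or.inl h)
  · exact Or.inl (Or.inr h)
  · exact Or.inr (Or.inr h)

/-- elements of `AL` in everything of the other pair -/
theorem c_anc_mem {j : ℕ} {a v : V} (h : R.anc a v) (ha : j * HH l + 1 ≤ R.f a + 2 * l) :
    a ∈ c_anc (R := R) (l := l) j v := Finset.mem_filter.2 ⟨mem_univ _, h, ha⟩

theorem c_z_f {j : ℕ} {x : V} {K : Set V} (h : S.β j x = some K) :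
    j * HH l + 1 ≤ R.f (S.z j x) + 2 * l := by
  rcases h1 : S.β (j + 1) x with _ | K'
  · rw [S.o_z_own h1 h]
    split_ifs with hx
    · have h2 := F.N_f (S.o_core h) (S.o_mem h)
      omega
    · have hE := S.exit _ K x (S.o_core h) (S.o_mem h) hx
      have h2 := F.N_f (S.o_core h) (S.o_mem h)
      have h3 := R.near_f (hE.near hE.bW)
      omega
  · rw [S.o_z_high h1, Nat.add_mul]
    omega

/-- the pair `e` reaches the pair `e'`: impossible for equal colours -/
theorem c_half_not {j : ℕ} {C : V → V → Prop} (hC : S.Cls j C) {N1 N2 N3 : ℕ} {θ : V → Fin N1}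
    (hθ : ∀ s t, s ≠ t → S.c_theta j s t → θ s ≠ θ t) {η : V → Fin N2}
    (hη : ∀ y' y, y' ≠ y → S.c_eta j C y' y → η y' ≠ η y) {ψ : V → Fin N3}
    (hψ : ∀ y s s', C y s' → s ≠ s' → S.c_Cen j s → θ s = θ s' →
      (∃ a ∈ S.c_AW j s, R.anc a (S.z j y)) → ψ s ≠ ψ s') {y s y' s' : V} (hy : C y s)
    (hy' : C y' s') (h1 : y ≠ y') (h2 : s ≠ s') (eθ : θ s = θ s') (eη : η y = η y')
    (eψ : ψ s = ψ s') : ¬ S.c_half j y s y' s' := by
  have In := hC.inl _ _ hy
  have In' := hC.inl _ _ hy'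
  have Ce := hC.cen _ _ hy
  have Ce' := hC.cen _ _ hy'
  obtain ⟨K, k1, k2, k3, k4⟩ := hC.inl _ _ hy
  obtain ⟨K', k1', k2', k3', k4'⟩ := hC.inl _ _ hy'
  -- (1) `AL` of one pair and everything of the other
  have L1 : ∀ a ∈ S.c_AL j y s, a ∈ S.c_Rel j y' s' → False := fun a ha ha' =>
    hη y' y (Ne.symm h1) ⟨s, s', hy, hy', a, ha, ha'⟩ eη.symm
  have L2 : ∀ a ∈ S.c_AL j y' s', a ∈ S.c_Rel j y s → False := fun a ha ha' =>
    hη y y' h1 ⟨s', s, hy', hy, a, ha, ha'⟩ eη
  -- (2) `AW`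
  have W1 : ∀ a ∈ S.c_AW j s, ∀ b ∈ insert (S.z j s') (S.c_AW j s'), R.anc a b → False :=
    fun a ha b hb hab => hθ s' s (Ne.symm h2) ⟨Ce', Ce, Or.inl ⟨a, ha, b, hb, hab⟩⟩ eθ.symm
  have P1 : ∀ a ∈ S.c_AW j s, R.anc a (S.z j y') → False := fun a ha haz =>
    hψ y' s s' hy' h2 Ce eθ ⟨a, ha, haz⟩ eψ
  have P2 : ∀ a ∈ S.c_AW j s', R.anc a (S.z j y) → False := fun a ha haz =>
    hψ y s' s hy (Ne.symm h2) Ce' eθ.symm ⟨a, ha, haz⟩ eψ.symm
  -- (4) the root vertex of the S-end
  have Z1 : S.c_S j y s → ∀ b, (b = S.z j y' ∨ b = S.z j s') → R.anc (S.z j y) b → False := by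
    intro hS b hb hab
    have hS' : S.c_S j y' s' := by
      rcases hC.kind with hk | hk
      · exact hk _ _ hy'
      · exact absurd hS (hk _ _ hy)
    obtain ⟨A, hA, hAQ⟩ := id hS
    have hzA := S.o_z_child hA
    have hCA := S.o_core hA
    have hb_le : R.f b ≤ (j + 1) * HH l + 1 := by
      rcases hb with rfl | rfl
      · exact S.c_z_le k2'
      · exact S.c_z_le k3'
    have heq : S.z j y = b := R.anc_eq hab (by rw [S.o_z_high hA]; exact hb_le)
    have hval : ∀ v, S.z j v = S.z j y → (∃ K, S.β j v = some K) → S.β (j + 1) v = some A := by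
      intro v hv hvK
      obtain ⟨K0, hK0⟩ := hvK
      rcases h3 : S.β (j + 1) v with _ | B
      · exfalso
        have e1 := S.o_z_low h3 hK0
        have e2 := S.o_z_high hA
        rw [hv, e2] at e1
        omega
      · rw [S.o_z_child h3, hzA] at hv
        rw [S.o_k_inj (S.o_core h3) hCA hv]
    rcases hb with rfl | rfl
    · have h4 := hval y' heq.symm ⟨K', k2'⟩
      exact h2 (hC.reg y s y' s' hy hy' hS hS' (by rw [hA, h4]))
    · have h4 := hval s' heq.symm ⟨K', k3'⟩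
      have h5 := S.c_S_E In hA hAQ
      exact hθ s' s (Ne.symm h2) ⟨Ce', Ce, Or.inr ⟨A, h4, h5⟩⟩ eθ.symm
  rintro (⟨a, ha, ha'⟩ | ⟨a, ha, haz⟩)
  · -- common element
    rcases S.c_A_sub In ha with h | h | ⟨hS, rfl⟩
    · refine L1 a h ?_
      rcases S.c_A_sub In' ha' with h' | h' | ⟨hS', rfl⟩
      · exact Finset.mem_union_left _ (Finset.mem_union_left _ h')
      · exact Finset.mem_union_left _ (Finset.mem_union_right _ h')
      · exact Finset.mem_union_right _ (Finset.mem_union_left _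
          (c_anc_mem (R.anc_refl _) (S.c_z_f k2')))
    · rcases S.c_A_sub In' ha' with h' | h' | ⟨hS', rfl⟩
      · exact L2 a h' (Finset.mem_union_left _ (Finset.mem_union_right _ h))
      · exact W1 a h a (Finset.mem_insert_of_mem h') (R.anc_refl _)
      · exact P1 _ h (R.anc_refl _)
    · rcases S.c_A_sub In' ha' with h' | h' | ⟨hS', he⟩
      · exact L2 _ h' (Finset.mem_union_right _ (Finset.mem_union_left _
          (c_anc_mem (R.anc_refl _) (S.c_z_f k2))))
      · exact P2 _ h' (R.anc_refl _)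
      · exact Z1 hS _ (Or.inl he) (R.anc_refl _)
  · -- ancestor of an anchor
    rcases S.c_A_sub In ha with h | h | ⟨hS, rfl⟩
    · refine L1 a h ?_
      rcases haz with haz | haz
      · exact Finset.mem_union_right _ (Finset.mem_union_left _
          (c_anc_mem haz (S.c_AL_f In h)))
      · exact Finset.mem_union_right _ (Finset.mem_union_right _
          (c_anc_mem haz (S.c_AL_f In h)))
    · rcases haz with haz | haz
      · exact P1 a h haz
      · exact W1 a h _ (Finset.mem_insert_self _ _) haz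
    · rcases haz with haz | haz
      · exact Z1 hS _ (Or.inl rfl) haz
      · exact Z1 hS _ (Or.inr rfl) haz

/-- number of colours of one class -/
def c_n (l c c2 d : ℕ) : ℕ := (2 * c_dt l c c2 + 1) * ((2 * c_dl l c c2 + 1) * (2 * d + 1))

/-- the colouring of one class -/
theorem c_class (hM : M5 R.G) {d : ℕ} (hF2 : F2 (2 * l + 1) (2 * c + 1) d) {j : ℕ}
    {C : V → V → Prop} (hC : S.Cls j C) : ∃ φ : V → Fin (c_n l c c2 d), ∀ y s y' s',
      C y s → C y' s' → y ≠ y' → s ≠ s' → φ y = φ y' → ¬ S.Conf j y s y' s' := by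
  obtain ⟨θ, hθ⟩ := S.c_theta_col j
  obtain ⟨η, hη⟩ := S.c_eta_col hC
  obtain ⟨ψ, hψ⟩ := S.c_psi_col hM hF2 hC hθ
  have e : (Fin (2 * c_dt l c c2 + 1) × (Fin (2 * c_dl l c c2 + 1) × Fin (2 * d + 1))) ≃
      Fin (c_n l c c2 d) := by
    refine Fintype.equivFinOfCardEq ?_
    rw [Fintype.card_prod, Fintype.card_prod, Fintype.card_fin, Fintype.card_fin,
      Fintype.card_fin]
    rfl
  refine ⟨fun y => if h : ∃ s, C y s then e (θ h.choose, η y, ψ h.choose) else e (0, 0, 0), ?_⟩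
  intro y s y' s' hy hy' h1 h2 he hconf
  have hex : ∃ s, C y s := ⟨s, hy⟩
  have hex' : ∃ s, C y' s := ⟨s', hy'⟩
  have e1 : hex.choose = s := hC.leaf _ _ _ hex.choose_spec hy
  have e2 : hex'.choose = s' := hC.leaf _ _ _ hex'.choose_spec hy'
  have he' : e (θ hex.choose, η y, ψ hex.choose) = e (θ hex'.choose, η y', ψ hex'.choose) := by
    have a1 : (if h : ∃ s, C y s then e (θ h.choose, η y, ψ h.choose) else e (0, 0, 0)) =
        e (θ hex.choose, η y, ψ hex.choose) := dif_pos hex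
    have a2 : (if h : ∃ s, C y' s then e (θ h.choose, η y', ψ h.choose) else e (0, 0, 0)) =
        e (θ hex'.choose, η y', ψ hex'.choose) := dif_pos hex'
    rw [← a1, ← a2]
    exact he
  rw [e1, e2] at he'
  have he2 := e.injective he'
  rw [Prod.mk.injEq, Prod.mk.injEq] at he2
  obtain ⟨eθ, eη, eψ⟩ := he2
  rcases S.c_conf_half hconf with h | h
  · exact S.c_half_not hC hθ hη hψ hy hy' h1 h2 eθ eη eψ h
  · exact S.c_half_not hC hθ hη hψ hy' hy (Ne.symm h1) (Ne.symm h2) eθ.symm eη.symm eψ.symm h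

end Sys

end Pool.Agent.H.MP_c8cc4c_co.Hub
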