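import Mathlib
import Pool.Agent.H.MP_c8cc4c_co.Hub.C.Check
import Pool.Agent.H.MP_c8cc4c_co.Hub.O.Att

/-!
# MP_c8cc4c_co, full question, part C: classes and the final colouring
-/

open scoped Classical
open Finset

noncomputable section

namespace Pool.Agent.H.MP_c8cc4c_co.Hub

/-- number of `v` in the finset `B` -/
def c_idx {V : Type} (B : Finset V) (v : V) : ℕ := B.toList.idxOf v

theorem c_idx_lt {V : Type} {B : Finset V} {v : V} (h : v ∈ B) : c_idx B v < B.card := by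
  rw [← Finset.length_toList]
  exact List.idxOf_lt_length_of_mem (Finset.mem_toList.2 h)

theorem c_idx_inj {V : Type} {B : Finset V} {v w : V} (h : v ∈ B)
    (he : c_idx B v = c_idx B w) : v = w :=
  (List.idxOf_inj (Finset.mem_toList.2 h)).1 he

/-- oriented adjacency -/
def c_r {V : Type} [Fintype V] {R : Rt V} {l c : ℕ} (F : Fam R l c) (x y : V) : Prop :=
  ∃ e : {e : Sym2 V // e ∈ F.Γ.edgeSet}, e.1.out.1 = x ∧ e.1.out.2 = y

/-- an order of the vertices in which every vertex has few smaller neighbours -/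
theorem c_order {V : Type} [Fintype V] {R : Rt V} {l c d : ℕ} (hM : M5 R.G)
    (hF2 : F2 (2 * l + 1) (2 * c + 1) d) (F : Fam R l c) : ∃ ρ : V → ℕ, Function.Injective ρ ∧
      ∀ y, (univ.filter fun s => ρ s < ρ y ∧ F.Γ.Adj y s).card ≤ 2 * d := by
  have hout : ∀ e : Sym2 V, s(e.out.1, e.out.2) = e := fun e => Quot.out_eq e
  have hadj : ∀ e : {e : Sym2 V // e ∈ F.Γ.edgeSet}, F.Γ.Adj e.1.out.1 e.1.out.2 := by
    intro e
    have := e.2
    rw [← hout e.1] at this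
    exact this
  have key := hF2 V R.G hM V (fun v => {v}) (fun v => connOn_singleton v)
    (fun i k hik => Set.disjoint_singleton.2 hik) {e : Sym2 V // e ∈ F.Γ.edgeSet}
    (fun e => e.1.out.1) (fun e => e.1.out.2) (fun e => (F.Q e.1).filter fun v => v ∉ e.1)
    (fun e => (hadj e).ne)
    (fun e => by
      have h1 := F.Q_card (hadj e)
      rw [hout] at h1
      have h2 := Finset.card_filter_le (F.Q e.1) fun v => v ∉ e.1
      omega)
    (fun v => by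
      have h0 := F.cong v
      refine (le_trans ?_ h0).trans (by omega)
      refine Finset.card_le_card_of_injOn (fun e => e.1) ?_ ?_
      · intro e he
        rw [Finset.mem_coe, Finset.mem_filter] at he ⊢
        have h1 := Finset.mem_filter.1 he.2
        exact ⟨mem_univ _, e.2, h1.1, h1.2⟩
      · intro e _ e' _ hee
        exact Subtype.ext hee)
    (fun e => by
      have h1 := F.near_Q (hadj e) (F.left_mem (hadj e)) (F.right_mem (hadj e))
      refine ⟨e.1.out.1, rfl, e.1.out.2, rfl, l, near_mono h1 le_rfl ?_⟩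
      intro v hv
      rw [hout] at hv
      by_cases hve : v ∈ e.1
      · left
        have h2 : v ∈ s(e.1.out.1, e.1.out.2) := by rw [hout]; exact hve
        rw [Sym2.mem_iff] at h2
        exact h2
      · right
        exact Finset.mem_coe.2 (Finset.mem_filter.2 ⟨hv, hve⟩))
  obtain ⟨ρ, h1, h2⟩ := order_deg (c_r F) (2 * d) (fun A hA => low_deg _ d A hA (by
    unfold c_r
    convert key A))
  refine ⟨ρ, h1, fun y => le_trans (Finset.card_le_card ?_) (h2 y)⟩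
  intro s hs
  rw [Finset.mem_filter] at hs ⊢
  refine ⟨mem_univ _, hs.2.1, ?_⟩
  have h3 := hout s(y, s)
  rw [Sym2.eq_iff] at h3
  rcases h3 with ⟨h3, h4⟩ | ⟨h3, h4⟩
  · exact Or.inl ⟨⟨s(y, s), hs.2.2⟩, h3, h4⟩
  · exact Or.inr ⟨⟨s(y, s), hs.2.2⟩, h3, h4⟩

namespace Sys

variable {V : Type} [Fintype V] {R : Rt V} {l c : ℕ} {F : Fam R l c} {T : Tour R} {c2 : ℕ}
  (S : Sys F T c2)

theorem c_conf_left {j : ℕ} {x u y w : V} (h : S.Conf j x u y w) : S.Conf j u x y w := by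
  unfold Conf at h ⊢
  rw [S.o_A_comm j x u]
  rcases h with h | h | ⟨a, ha, h⟩
  · exact Or.inl h
  · exact Or.inr (Or.inl h)
  · exact Or.inr (Or.inr ⟨a, ha, h.symm⟩)

theorem c_conf_right {j : ℕ} {x u y w : V} (h : S.Conf j x u y w) : S.Conf j x u w y := by
  unfold Conf at h ⊢
  rw [S.o_A_comm j y w]
  rcases h with h | ⟨a, ha, h⟩ | h
  · exact Or.inl h
  · exact Or.inr (Or.inl ⟨a, ha, h.symm⟩)
  · exact Or.inr (Or.inr h)

/-- the child region of a vertex -/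
def c_reg (j : ℕ) (y : V) : Set V := (S.β (j + 1) y).getD ∅

/-- the smaller neighbours -/
def c_B (F : Fam R l c) (ρ : V → ℕ) (y : V) : Finset V :=
  univ.filter fun s => ρ s < ρ y ∧ F.Γ.Adj y s

/-- the classes -/
def c_C (j : ℕ) (ρ : V → ℕ) (k : Bool) (i : ℕ) (y s : V) : Prop :=
  S.c_In j y s ∧ ¬ S.c_S j s y ∧
    if k then S.c_S j y s ∧ c_idx (S.c_E j (S.c_reg j y)) s = i
      else ¬ S.c_S j y s ∧ ρ s < ρ y ∧ c_idx (c_B F ρ y) s = i

theorem c_C_cls (j : ℕ) (ρ : V → ℕ) (k : Bool) (i : ℕ) : S.Cls j (S.c_C j ρ k i) := by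
  have memE : ∀ y s, S.c_In j y s → S.c_S j y s → s ∈ S.c_E j (S.c_reg j y) := by
    intro y s h1 h2
    obtain ⟨K', h3, h4⟩ := id h2
    have h5 : S.c_reg j y = K' := by
      unfold c_reg
      rw [h3]
      rfl
    rw [h5]
    exact S.c_S_E h1 h3 h4
  cases k
  · refine ⟨fun y s h => h.1, ?_, fun y s h => S.c_In_Cen h.1 h.2.1, ?_, ?_⟩
    · rintro y s s' ⟨h1, h2, h3⟩ ⟨h1', h2', h3'⟩
      have a1 : ¬ S.c_S j y s ∧ ρ s < ρ y ∧ c_idx (c_B F ρ y) s = i := h3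
      have a2 : ¬ S.c_S j y s' ∧ ρ s' < ρ y ∧ c_idx (c_B F ρ y) s' = i := h3'
      obtain ⟨K, k1, -⟩ := h1
      refine c_idx_inj (B := c_B F ρ y) ?_ (a1.2.2.trans a2.2.2.symm)
      exact Finset.mem_filter.2 ⟨mem_univ _, a1.2.1, k1⟩
    · right
      rintro y s ⟨h1, h2, h3⟩
      have a1 : ¬ S.c_S j y s ∧ ρ s < ρ y ∧ c_idx (c_B F ρ y) s = i := h3
      exact a1.1
    · rintro y s y' s' ⟨h1, h2, h3⟩ - hS
      have a1 : ¬ S.c_S j y s ∧ ρ s < ρ y ∧ c_idx (c_B F ρ y) s = i := h3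
      exact absurd hS a1.1
  · refine ⟨fun y s h => h.1, ?_, fun y s h => S.c_In_Cen h.1 h.2.1, ?_, ?_⟩
    · rintro y s s' ⟨h1, h2, h3⟩ ⟨h1', h2', h3'⟩
      have a1 : S.c_S j y s ∧ c_idx (S.c_E j (S.c_reg j y)) s = i := h3
      have a2 : S.c_S j y s' ∧ c_idx (S.c_E j (S.c_reg j y)) s' = i := h3'
      exact c_idx_inj (memE y s h1 a1.1) (a1.2.trans a2.2.symm)
    · left
      rintro y s ⟨h1, h2, h3⟩
      have a1 : S.c_S j y s ∧ c_idx (S.c_E j (S.c_reg j y)) s = i := h3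
      exact a1.1
    · rintro y s y' s' ⟨h1, h2, h3⟩ ⟨h1', h2', h3'⟩ - - hreg
      have a1 : S.c_S j y s ∧ c_idx (S.c_E j (S.c_reg j y)) s = i := h3
      have a2 : S.c_S j y' s' ∧ c_idx (S.c_E j (S.c_reg j y')) s' = i := h3'
      have e1 : S.c_reg j y = S.c_reg j y' := by
        unfold c_reg
        rw [hreg]
      rw [← e1] at a2
      exact c_idx_inj (memE y s h1 a1.1) (a1.2.trans a2.2.symm)

/-- every pair is in a class -/
theorem c_C_ex {j : ℕ} {ρ : V → ℕ} (hρ : Function.Injective ρ) {d : ℕ}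
    (hd : ∀ y, (c_B F ρ y).card ≤ 2 * d) {x u : V} (h : S.c_In j x u) :
    ∃ q : (Bool × Fin (c2 + 2 * d + 1)) × V × V, s(q.2.1, q.2.2) = s(x, u) ∧
      S.c_C j ρ q.1.1 q.1.2 q.2.1 q.2.2 := by
  have hS : ∀ y s, S.c_In j y s → S.c_S j y s → s(y, s) = s(x, u) →
      ∃ q : (Bool × Fin (c2 + 2 * d + 1)) × V × V, s(q.2.1, q.2.2) = s(x, u) ∧
      S.c_C j ρ q.1.1 q.1.2 q.2.1 q.2.2 := by
    intro y s h1 h2 h3
    obtain ⟨K', h4, h5⟩ := id h2
    have h6 : S.c_reg j y = K' := by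
      unfold c_reg
      rw [h4]
      rfl
    have h7 := S.c_S_E h1 h4 h5
    have h8 := c_idx_lt h7
    have h9 := S.c_E_card (S.o_core h4)
    refine ⟨((true, ⟨c_idx (S.c_E j K') s, by omega⟩), (y, s)), h3, h1,
      fun hc => S.c_S_one h1 ⟨h2, hc⟩, ?_⟩
    show S.c_S j y s ∧ c_idx (S.c_E j (S.c_reg j y)) s = c_idx (S.c_E j K') s
    rw [h6]
    exact ⟨h2, rfl⟩
  have hR : ∀ y s, S.c_In j y s → ¬ S.c_S j y s → ¬ S.c_S j s y → ρ s < ρ y →
      s(y, s) = s(x, u) → ∃ q : (Bool × Fin (c2 + 2 * d + 1)) × V × V,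
      s(q.2.1, q.2.2) = s(x, u) ∧ S.c_C j ρ q.1.1 q.1.2 q.2.1 q.2.2 := by
    intro y s h1 h2 h3 h4 h5
    obtain ⟨K, k1, -⟩ := id h1
    have h7 : s ∈ c_B F ρ y := Finset.mem_filter.2 ⟨mem_univ _, h4, k1⟩
    have h8 := c_idx_lt h7
    have h9 := hd y
    refine ⟨((false, ⟨c_idx (c_B F ρ y) s, by omega⟩), (y, s)), h5, h1, h3, ?_⟩
    show ¬ S.c_S j y s ∧ ρ s < ρ y ∧ c_idx (c_B F ρ y) s = c_idx (c_B F ρ y) s
    exact ⟨h2, h4, rfl⟩
  have h' := S.c_In_symm h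
  by_cases h1 : S.c_S j x u
  · exact hS x u h h1 rfl
  by_cases h2 : S.c_S j u x
  · exact hS u x h' h2 Sym2.eq_swap
  have hne : x ≠ u := by
    obtain ⟨K, k1, -⟩ := h
    exact k1.ne
  rcases lt_or_gt_of_ne (fun hc => hne (hρ hc) : ρ x ≠ ρ u) with h3 | h3
  · exact hR u x h' h2 h1 h3 Sym2.eq_swap
  · exact hR x u h h1 h2 h3 rfl

end Sys

/-- number of colours -/
def c_N (l c c2 d : ℕ) : ℕ := 2 * (c2 + 2 * d + 1) * Sys.c_n l c c2 d

/-- Part C: colouring of the conflicts -/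
theorem colour_stmt (hF : Fact2Stmt) : ColourStmt := by
  intro l c c2
  obtain ⟨d, hF2⟩ := F2_of hF (2 * l + 1) (2 * c + 1)
  refine ⟨c_N l c c2 d, ?_, ?_⟩
  · unfold c_N Sys.c_n
    positivity
  intro V _ R hM F T S j
  obtain ⟨ρ, hρ, hd⟩ := c_order hM hF2 F
  choose φ hφ using fun k : Bool × Fin (c2 + 2 * d + 1) =>
    S.c_class hM hF2 (S.c_C_cls j ρ k.1 k.2)
  have e : ((Bool × Fin (c2 + 2 * d + 1)) × Fin (Sys.c_n l c c2 d)) ≃ Fin (c_N l c c2 d) := by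
    refine Fintype.equivFinOfCardEq ?_
    rw [Fintype.card_prod, Fintype.card_prod, Fintype.card_fin, Fintype.card_fin,
      Fintype.card_bool]
    rfl
  have h0 : 0 < c_N l c c2 d := by
    unfold c_N Sys.c_n
    positivity
  refine ⟨fun p => if h : ∃ q : (Bool × Fin (c2 + 2 * d + 1)) × V × V, s(q.2.1, q.2.2) = p ∧
      S.c_C j ρ q.1.1 q.1.2 q.2.1 q.2.2 then e (h.choose.1, φ h.choose.1 h.choose.2.1)
      else ⟨0, h0⟩, ?_⟩
  intro K K' x u y w hxu hyw n1 n2 n3 n4 he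
  have hex := S.c_C_ex hρ hd ⟨K, hxu⟩
  have hex' := S.c_C_ex hρ hd ⟨K', hyw⟩
  have he' : e (hex.choose.1, φ hex.choose.1 hex.choose.2.1) =
      e (hex'.choose.1, φ hex'.choose.1 hex'.choose.2.1) := by
    have a1 : (if h : ∃ q : (Bool × Fin (c2 + 2 * d + 1)) × V × V, s(q.2.1, q.2.2) = s(x, u) ∧
      S.c_C j ρ q.1.1 q.1.2 q.2.1 q.2.2 then e (h.choose.1, φ h.choose.1 h.choose.2.1)
      else (⟨0, h0⟩ : Fin (c_N l c c2 d))) = _ := dif_pos hex
    have a2 : (if h : ∃ q : (Bool × Fin (c2 + 2 * d + 1)) × V × V, s(q.2.1, q.2.2) = s(y, w) ∧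
      S.c_C j ρ q.1.1 q.1.2 q.2.1 q.2.2 then e (h.choose.1, φ h.choose.1 h.choose.2.1)
      else (⟨0, h0⟩ : Fin (c_N l c c2 d))) = _ := dif_pos hex'
    rw [← a1, ← a2]
    exact he
  have he2 := e.injective he'
  rw [Prod.mk.injEq] at he2
  obtain ⟨ek, eφ⟩ := he2
  obtain ⟨g1, g2⟩ := hex.choose_spec
  obtain ⟨g1', g2'⟩ := hex'.choose_spec
  rw [← ek] at g2' eφ
  have hmain := hφ hex.choose.1 _ _ _ _ g2 g2'
  rw [Sym2.eq_iff] at g1 g1'
  rcases g1 with ⟨g1, g3⟩ | ⟨g1, g3⟩ <;> rcases g1' with ⟨g1', g3'⟩ | ⟨g1', g3'⟩ <;>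
    rw [g1, g3, g1', g3'] at hmain <;> rw [g1, g1'] at eφ
  · exact hmain n1 n4 eφ
  · exact fun hc => hmain n2 n3 eφ (S.c_conf_right hc)
  · exact fun hc => hmain n3 n2 eφ (S.c_conf_left hc)
  · exact fun hc => hmain n4 n1 eφ (S.c_conf_left (S.c_conf_right hc))

end Pool.Agent.H.MP_c8cc4c_co.Hub
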